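import Pool.Agent.H83.FS.Stm

/-!
# Friends-and-strangers (helper83): `S_link`
-/

set_option autoImplicit false

namespace Pool.Agent.H658.FS83

open Pool.Agent.H83.FS

section

variable {V T : Type} [DecidableEq T] {Y : SimpleGraph V} {col : T → Bool}

omit [DecidableEq T] in
theorem app_inv (g : Equiv.Perm T) (t : T) : g (g⁻¹ t) = t := Equiv.apply_symm_apply g t

/-- the permutations exchanging tokens of the same colour preserve the colours -/
theorem col_swap {a a' : T} (h : col a = col a') (t : T) : col (Equiv.swap a a' t) = col t := by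
  by_cases h1 : t = a
  · rw [h1, Equiv.swap_apply_left, h]
  · by_cases h2 : t = a'
    · rw [h2, Equiv.swap_apply_right, h]
    · rw [Equiv.swap_apply_of_ne_of_ne h1 h2]

theorem col_g {a a' b b' : T} (h : col a = col a') (h' : col b = col b') (t : T) :
    col ((Equiv.swap a a' * Equiv.swap b b') t) = col t := by
  rw [Equiv.Perm.mul_apply, col_swap h, col_swap h']

omit [DecidableEq T] in
theorem rch_mul {σ : T ≃ V} {g h : Equiv.Perm T} (hg : ∀ t, col (g t) = col t)
    (rg : Rch Y col σ (g.trans σ)) (rh : Rch Y col σ (h.trans σ)) :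
    Rch Y col σ ((h * g).trans σ) := by
  have h1 := rh.relabel g hg
  have e : g.trans (h.trans σ) = (h * g).trans σ := by
    ext x
    rfl
  rw [e] at h1
  exact rg.trans h1

omit [DecidableEq T] in
theorem rch_inv {σ : T ≃ V} {g : Equiv.Perm T} (hg : ∀ t, col (g t) = col t)
    (rg : Rch Y col σ (g.trans σ)) : Rch Y col σ ((g⁻¹).trans σ) := by
  have hg' : ∀ t, col (g⁻¹ t) = col t := by
    intro t
    rw [← hg (g⁻¹ t), app_inv]
  have h1 := rg.relabel g⁻¹ hg'
  have e : (g⁻¹).trans (g.trans σ) = σ := by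
    ext x
    show σ (g (g⁻¹ x)) = σ x
    rw [app_inv]
  rw [e] at h1
  exact h1.symm

end

theorem link : S_link := by
  intro V T _ Y col
  refine ⟨?_, ?_, ?_⟩
  · rintro σ τ b b' hr hc ⟨a, a', h1, h2, h3, h4⟩
    refine ⟨a, a', h1, h2, h3, ?_⟩
    have h5 := hr.relabel (Equiv.swap a a' * Equiv.swap b b') (col_g (by rw [h2, h3]) hc)
    exact hr.symm.trans (h4.trans h5)
  · rintro σ b b' hc ⟨a, a', h1, h2, h3, h4⟩
    refine ⟨a, a', h1, by rw [h2, hc], by rw [h3, hc], ?_⟩
    rw [Equiv.swap_comm b' b]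
    exact h4
  · rintro σ b b' b'' hc hc' hbb' hb'b'' hbb'' ⟨a, a', h1, h2, h3, h4⟩ ⟨c, c', k1, k2, k3, k4⟩
    obtain ⟨g, hg⟩ : ∃ g, g = Equiv.swap a a' * Equiv.swap b b' := ⟨_, rfl⟩
    obtain ⟨h, hh⟩ : ∃ h, h = Equiv.swap c c' * Equiv.swap b' b'' := ⟨_, rfl⟩
    rw [← hg] at h4
    rw [← hh] at k4
    have cg : ∀ t, col (g t) = col t := by
      rw [hg]; exact col_g (by rw [h2, h3]) hc
    have ch : ∀ t, col (h t) = col t := by
      rw [hh]; exact col_g (by rw [k2, k3]) hc'
    have hne : ∀ x y : T, col x = col b → col y = !(col b) → x ≠ y := by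
      rintro x y hx hy rfl
      rw [hx] at hy
      revert hy
      cases col b <;> simp
    have gb' : g b' = b := by
      rw [hg, Equiv.Perm.mul_apply, Equiv.swap_apply_right,
        Equiv.swap_apply_of_ne_of_ne (hne b a rfl h2) (hne b a' rfl h3)]
    have gb'' : g b'' = b'' := by
      have hb'' : col b'' = col b := by rw [hc, hc']
      rw [hg, Equiv.Perm.mul_apply, Equiv.swap_apply_of_ne_of_ne hbb''.symm hb'b''.symm,
        Equiv.swap_apply_of_ne_of_ne (hne b'' a hb'' h2) (hne b'' a' hb'' h3)]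
    refine ⟨g c, g c', fun h5 => k1 (g.injective h5), by rw [cg, k2, hc], by rw [cg, k3, hc], ?_⟩
    have e : Equiv.swap (g c) (g c') * Equiv.swap b b'' = g * (h * g⁻¹) := by
      have e1 : g * Equiv.swap c c' = Equiv.swap (g c) (g c') * g :=
        Equiv.mul_swap_eq_swap_mul g c c'
      have e2 : g * Equiv.swap b' b'' = Equiv.swap b b'' * g := by
        rw [Equiv.mul_swap_eq_swap_mul, gb', gb'']
      rw [hh, ← mul_assoc, ← mul_assoc, e1, mul_assoc (Equiv.swap (g c) (g c')) g, e2,
        mul_assoc, mul_assoc, mul_inv_cancel, mul_one]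
    rw [e]
    have cg' : ∀ t, col (g⁻¹ t) = col t := by
      intro t
      rw [← cg (g⁻¹ t), app_inv]
    have r1 := rch_mul cg' (rch_inv cg h4) k4
    refine rch_mul ?_ r1 h4
    intro t
    rw [Equiv.Perm.mul_apply, ch, cg']

end Pool.Agent.H658.FS83
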